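import Mathlib

/-! A sum of ceilings takes every value for incommensurable periods (MN-1). -/

set_option autoImplicit false

namespace Pool.Agent.TH370.MN

open Finset

theorem exists_sum_ceil {J : Type} [Fintype J] [Nonempty J] (c : J → ℝ) (hc : ∀ j, 0 < c j)
    (hirr : ∀ i j, i ≠ j → Irrational (c i / c j)) (N : ℕ) (hN : Fintype.card J ≤ N) :
    ∃ ω : ℝ, 0 < ω ∧ ∑ j, ⌈ω / c j⌉₊ = N := by
  classical
  induction N, hN using Nat.le_induction with
  | base =>
    obtain ⟨x, hx⟩ := Finite.exists_min c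
    refine ⟨c x, hc x, ?_⟩
    have h1 : ∀ j, ⌈c x / c j⌉₊ = 1 := by
      intro j
      rw [Nat.ceil_eq_iff one_ne_zero]
      refine ⟨?_, ?_⟩
      · simp only [Nat.sub_self, Nat.cast_zero]
        exact div_pos (hc x) (hc j)
      · rw [Nat.cast_one, div_le_one (hc j)]
        exact hx j
    simp [h1]
  | succ N hN ih =>
    obtain ⟨ω, hω, hsum⟩ := ih
    set k : J → ℕ := fun j => ⌈ω / c j⌉₊ with hk
    have hk1 : ∀ j, 1 ≤ k j := by
      intro j
      rw [hk]
      exact Nat.one_le_iff_ne_zero.2 (Nat.ceil_pos.2 (div_pos hω (hc j))).ne'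
    have hk2 : ∀ j, ω / c j ≤ k j := fun j => Nat.le_ceil _
    have hk3 : ∀ j, (k j : ℝ) < ω / c j + 1 := fun j => Nat.ceil_lt_add_one (div_pos hω (hc j)).le
    obtain ⟨j₀, hj₀⟩ := Finite.exists_min (fun j => c j * (k j : ℝ))
    have hωw : ω ≤ c j₀ * k j₀ := by
      have := hk2 j₀
      rw [div_le_iff₀ (hc j₀)] at this
      linarith
    have hlt : ∀ j, j ≠ j₀ → c j₀ * k j₀ < c j * k j := by
      intro j hj
      refine lt_of_le_of_ne (hj₀ j) ?_
      intro he
      have hkj₀ : (0 : ℝ) < k j₀ := by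
        have := hk1 j₀
        exact_mod_cast this
      apply hirr j₀ j (Ne.symm hj)
      refine ⟨(k j : ℚ) / (k j₀ : ℚ), ?_⟩
      push_cast
      rw [div_eq_div_iff hkj₀.ne' (hc j).ne']
      linarith
    obtain ⟨x, hx1, hx2, hx3⟩ : ∃ x : ℝ, c j₀ * k j₀ < x ∧ x ≤ c j₀ * k j₀ + c j₀ ∧
        ∀ j, j ≠ j₀ → x ≤ c j * k j := by
      have h1 : ∀ᶠ x in nhdsWithin (c j₀ * k j₀) (Set.Ioi (c j₀ * k j₀)),
          x ∈ Set.Ioc (c j₀ * k j₀) (c j₀ * k j₀ + c j₀) :=
        Ioc_mem_nhdsGT (by linarith [hc j₀])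
      have h2 : ∀ᶠ x in nhdsWithin (c j₀ * k j₀) (Set.Ioi (c j₀ * k j₀)),
          ∀ j, j ≠ j₀ → x ≤ c j * k j := by
        rw [Filter.eventually_all]
        intro j
        by_cases hj : j = j₀
        · exact Filter.Eventually.of_forall fun x h => absurd hj h
        · have h3 : ∀ᶠ x in nhdsWithin (c j₀ * k j₀) (Set.Ioi (c j₀ * k j₀)),
              x ∈ Set.Ioc (c j₀ * k j₀) (c j * k j) := Ioc_mem_nhdsGT (hlt j hj)
          filter_upwards [h3] with x hx _
          exact hx.2
      obtain ⟨x, hx, hx'⟩ := (h1.and h2).exists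
      exact ⟨x, hx.1, hx.2, hx'⟩
    have hx0 : 0 < x := by linarith
    refine ⟨x, hx0, ?_⟩
    have hval : ∀ j, ⌈x / c j⌉₊ = k j + if j = j₀ then 1 else 0 := by
      intro j
      by_cases hj : j = j₀
      · subst hj
        rw [if_pos rfl, Nat.ceil_eq_iff (by omega), Nat.add_sub_cancel]
        refine ⟨?_, ?_⟩
        · rw [lt_div_iff₀ (hc j)]
          linarith
        · rw [div_le_iff₀ (hc j)]
          push_cast
          linarith
      · rw [if_neg hj, add_zero, Nat.ceil_eq_iff (by have := hk1 j; omega)]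
        refine ⟨?_, ?_⟩
        · have h1 : ((k j - 1 : ℕ) : ℝ) = k j - 1 := by
            rw [Nat.cast_sub (hk1 j), Nat.cast_one]
          rw [h1]
          have h2 := hk3 j
          have h3 : ω / c j < x / c j := by
            apply div_lt_div_of_pos_right _ (hc j)
            linarith
          linarith
        · rw [div_le_iff₀ (hc j)]
          have := hx3 j hj
          linarith
    rw [Finset.sum_congr rfl fun j _ => hval j, Finset.sum_add_distrib]
    have h4 : ∑ j, k j = N := hsum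
    rw [h4]
    simp

end Pool.Agent.TH370.MN
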